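import Pool.Agent.TFU.Main

set_option autoImplicit false

/-!
# An FPRAS for the Tutte polynomial, `x > 1`, `0 ≤ y < 1`, on graphs of maximum degree `≤ x + 1`
-/

namespace Pool.Agent.Kept15.CriticalDegreeFPRAS

open Pool.Agent.Helper47.TR Pool.Agent.TFP

/-- Let `x > 1`, `0 ≤ y < 1` be rational. `T(G; x, y)` has a fully polynomial randomised
approximation scheme on the multigraphs all of whose vertices have less than `x + 1` non-loop
edges, and on the multigraphs all of whose vertices have at most `x + 1` non-loop edges provided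
that `y > 0` or that there are no parallel non-loop edges. -/
theorem result (x y : ℚ) (hx : 1 < x) (hy0 : 0 ≤ y) (hy1 : y < 1) :
    HasFPRAS (fun G => ∀ v, (deg G v : ℚ) < x + 1) (tutte x y) ∧
    HasFPRAS (fun G => (∀ v, (deg G v : ℚ) ≤ x + 1) ∧ (0 < y ∨ NoPar G)) (tutte x y) :=
  Pool.Agent.TFU.main x y hx hy0 hy1

end Pool.Agent.Kept15.CriticalDegreeFPRAS
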