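import Pool.Agent.DFP.Fin

set_option autoImplicit false

/-!
# MP_e767af_lc: FPRAS for the Tutte polynomial of dense multigraphs, `x ≥ 1`, `0 ≤ y < 1`

Multigraphs `MG`, `Valid`, `tutte`: `Pool.Agent.Helper47.TR.Defs`; `HasFPRAS`: `Pool.Agent.TFP.Stmt`.
-/

namespace Pool.Agent.Kept15.DenseFPRAS

open Pool.Agent.Helper47.TR (MG tutte)

/-- the number of edges joining the vertices `v` and `u` -/
def mul (G : MG) (v u : ℕ) : ℕ :=
  (G.2.filter fun e => decide ((e.1 = v ∧ e.2 = u) ∨ (e.1 = u ∧ e.2 = v))).length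

/-- for every vertex `v` the sum of `y ^ (number of edges joining v and u)` over the other
vertices `u` is at most `δ` times the number of vertices -/
def Dense (y δ : ℚ) (G : MG) : Prop :=
  ∀ v < G.1.length, ∑ u ∈ (Finset.range G.1.length).erase v, y ^ mul G v u ≤ δ * G.1.length

theorem mul_eq (G : MG) (v u : ℕ) : mul G v u = Pool.Agent.DFP.mult G.2 v u := by
  unfold mul Pool.Agent.DFP.mult Pool.Agent.DFP.multL
  rw [List.length_map]
  congr 1
  apply List.filter_congr
  intro e _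
  rw [Bool.eq_iff_iff]
  simp only [decide_eq_true_eq, Bool.or_eq_true, Bool.and_eq_true, beq_iff_eq]

theorem result (x y δ : ℚ) (hx : 1 ≤ x) (hy0 : 0 ≤ y) (hy1 : y < 1) (hδ : δ < 1 / 6) :
    Pool.Agent.TFP.HasFPRAS (Dense y δ) (tutte x y) := by
  have h : Dense y δ = Pool.Agent.DFP.Dn y δ := by
    funext G
    unfold Dense Pool.Agent.DFP.Dn
    simp only [mul_eq]
  rw [h]
  exact Pool.Agent.DFP.fpras hx hy0 hy1 hδ

end Pool.Agent.Kept15.DenseFPRAS
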